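import Pool.Agent.Y782.WU.Stm

set_option autoImplicit false

open MeasureTheory ProbabilityTheory Filter Topology
open scoped ENNReal NNReal BigOperators unitInterval

namespace Pool.Agent.Y782.WU

section lit
variable {V : Type}

open Classical in
/-- probability that the walk started at `w` is at `v` for the first time at time `n` -/
noncomputable def hit (G : SimpleGraph V) (v : V) : ℕ → V → ℝ≥0∞
  | 0, w => if w = v then 1 else 0
  | n + 1, w => if w = v then 0 else ∑' z, stp G w z * hit G v n z

lemma pn_hit (G : SimpleGraph V) (v : V) (n : ℕ) : ∀ w : V,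
    pn G n w v = ∑ k ∈ Finset.range (n + 1), hit G v k w * pn G (n - k) v v := by
  classical
  induction n with
  | zero =>
    intro w
    simp only [zero_add, Finset.range_one, Finset.sum_singleton, pn, hit, Nat.sub_zero]
    simp
  | succ n ih =>
    intro w
    rw [Finset.sum_range_succ']
    by_cases h : w = v
    · subst h
      simp [hit]
    · have h0 : hit G v 0 w = 0 := by simp [hit, h]
      rw [h0, zero_mul, add_zero]
      show ∑' z, stp G w z * pn G n z v = _
      have h1 : ∀ k, hit G v (k + 1) w = ∑' z, stp G w z * hit G v k z := by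
        intro k
        simp [hit, h]
      have h2 : ∀ k ∈ Finset.range (n + 1), hit G v (k + 1) w * pn G (n + 1 - (k + 1)) v v =
          ∑' z, stp G w z * (hit G v k z * pn G (n - k) v v) := by
        intro k _
        rw [h1, ← ENNReal.tsum_mul_right, Nat.add_sub_add_right]
        apply tsum_congr
        intro z
        ring
      rw [Finset.sum_congr rfl h2, ← Summable.tsum_finsetSum (fun i _ => ENNReal.summable)]
      apply tsum_congr
      intro z
      rw [ih z, Finset.mul_sum]

/-- the walk returns to its starting vertex almost surely -/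
def Ret (G : SimpleGraph V) : Prop := ∀ v, ∑' n, ∑' z, stp G v z * hit G v n z = 1

lemma conv_tsum (a b : ℕ → ℝ≥0∞) :
    ∑' n, ∑ k ∈ Finset.range (n + 1), a k * b (n - k) = (∑' k, a k) * ∑' m, b m := by
  have h1 : ∀ n, ∑ k ∈ Finset.range (n + 1), a k * b (n - k) =
      ∑' k, if k ≤ n then a k * b (n - k) else 0 := by
    intro n
    rw [tsum_eq_sum (s := Finset.range (n + 1))]
    · apply Finset.sum_congr rfl
      intro k hk
      rw [Finset.mem_range] at hk
      rw [if_pos (by omega)]
    · intro k hk
      rw [Finset.mem_range] at hk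
      rw [if_neg (by omega)]
  simp_rw [h1]
  rw [ENNReal.tsum_comm, ← ENNReal.tsum_mul_right]
  apply tsum_congr
  intro k
  rw [← ENNReal.tsum_mul_left]
  have h2 : ∑' n, (if k ≤ n then a k * b (n - k) else 0) =
      ∑' n : ℕ, (if k ≤ n + k then a k * b (n + k - k) else 0) + ∑ n ∈ Finset.range k,
        (if k ≤ n then a k * b (n - k) else 0) := by
    rw [add_comm]; exact (Summable.sum_add_tsum_nat_add' (f := fun n => if k ≤ n then a k * b (n - k) else 0) (k := k) ENNReal.summable).symm
  rw [h2]
  have h3 : ∑ n ∈ Finset.range k, (if k ≤ n then a k * b (n - k) else 0) = 0 := by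
    apply Finset.sum_eq_zero
    intro n hn
    rw [Finset.mem_range] at hn
    rw [if_neg (by omega)]
  rw [h3, add_zero]
  apply tsum_congr
  intro n
  rw [if_pos (by omega)]
  congr 2
  omega

theorem ret_rec (G : SimpleGraph V) (h : Ret G) : Rec G := by
  classical
  intro v
  have h1 : ∑' n, pn G n v v = 1 + ∑' n, pn G (n + 1) v v := by
    rw [← Summable.sum_add_tsum_nat_add' (f := fun n => pn G n v v) (k := 1) ENNReal.summable]
    simp [pn]
  have h2 : ∑' n, pn G (n + 1) v v = ∑' n, pn G n v v := by
    have h3 : ∀ n, pn G (n + 1) v v =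
        ∑ k ∈ Finset.range (n + 1), (∑' z, stp G v z * hit G v k z) * pn G (n - k) v v := by
      intro n
      show ∑' z, stp G v z * pn G n z v = _
      simp_rw [← ENNReal.tsum_mul_right]
      rw [← Summable.tsum_finsetSum (fun i _ => ENNReal.summable)]
      apply tsum_congr
      intro z
      rw [pn_hit G v n z, Finset.mul_sum]
      apply Finset.sum_congr rfl
      intro k _
      ring
    simp_rw [h3]
    rw [conv_tsum (fun k => ∑' z, stp G v z * hit G v k z) (fun m => pn G m v v), h v, one_mul]
  by_contra hne
  rw [h2] at h1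
  have h4 : (∑' n, pn G n v v) < ∑' n, pn G n v v + 1 := ENNReal.lt_add_right hne one_ne_zero
  rw [add_comm, ← h1] at h4
  exact lt_irrefl _ h4

end lit

end Pool.Agent.Y782.WU
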