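import Pool.Agent.Y782.WU.Stm

set_option autoImplicit false

open MeasureTheory ProbabilityTheory Filter Topology
open scoped ENNReal NNReal BigOperators unitInterval

namespace Pool.Agent.Y782.WU

section general
variable {W E : Type}

lemma rch_map {W' E' : Type} (M : FG W E) (M' : FG W' E') (S : Finset E) (S' : Finset E') (f : W → W')
    (h : ∀ e ∈ S, Rch M' S' (f (M.s e)) (f (M.t e))) {a b : W} (hab : Rch M S a b) :
    Rch M' S' (f a) (f b) := by
  unfold Rch at hab
  induction hab with
  | rel a b hr =>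
    obtain ⟨e, he, rfl, rfl⟩ := hr
    exact h e he
  | refl a => exact Relation.EqvGen.refl _
  | symm a b _ ih => exact Relation.EqvGen.symm _ _ ih
  | trans a b c _ _ ih1 ih2 => exact Relation.EqvGen.trans _ _ _ ih1 ih2

lemma rch_prop (M : FG W E) (S : Finset E) (p : W → Prop)
    (h : ∀ e ∈ S, (p (M.s e) ↔ p (M.t e))) {a b : W} (hab : Rch M S a b) : p a ↔ p b := by
  unfold Rch at hab
  induction hab with
  | rel a b hr =>
    obtain ⟨e, he, rfl, rfl⟩ := hr
    exact h e he
  | refl a => exact Iff.rfl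
  | symm a b _ ih => exact ih.symm
  | trans a b c _ _ ih1 ih2 => exact ih1.trans ih2

lemma rch_edge (M : FG W E) (S : Finset E) (e : E) (he : e ∈ S) : Rch M S (M.s e) (M.t e) :=
  Relation.EqvGen.rel _ _ ⟨e, he, rfl, rfl⟩

lemma NS_eq_ncard (M : FG W E) (Y O : Finset E) (P : Finset E → Prop) :
    NS M Y O P = Set.ncard {S : Finset E | IsST M S ∧ Y ⊆ S ∧ Disjoint S O ∧ P S} := by
  classical
  unfold NS
  rw [← Set.ncard_coe_finset]
  congr 1
  ext S
  rw [Finset.mem_coe, Finset.mem_filter, Finset.mem_powerset]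
  exact ⟨fun h => h.2, fun h => ⟨h.1.1, h⟩⟩

lemma NS_set_finite (M : FG W E) (Q : Finset E → Prop) :
    {S : Finset E | IsST M S ∧ Q S}.Finite := by
  classical
  apply Set.Finite.subset (M.D.powerset.finite_toSet)
  intro S hS
  exact Finset.mem_coe.2 (Finset.mem_powerset.2 hS.1.1)

lemma NS_bij {W' E' : Type} (M : FG W E) (M' : FG W' E') (Y O : Finset E) (Y' O' : Finset E')
    (P : Finset E → Prop) (P' : Finset E' → Prop) (f : Finset E → Finset E')
    (h1 : ∀ S, IsST M S → Y ⊆ S → Disjoint S O → P S →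
      (IsST M' (f S) ∧ Y' ⊆ f S ∧ Disjoint (f S) O' ∧ P' (f S)))
    (h2 : ∀ S T, IsST M S → IsST M T → f S = f T → S = T)
    (h3 : ∀ S', IsST M' S' → Y' ⊆ S' → Disjoint S' O' → P' S' →
      ∃ S, IsST M S ∧ Y ⊆ S ∧ Disjoint S O ∧ P S ∧ f S = S') :
    NS M Y O P = NS M' Y' O' P' := by
  rw [NS_eq_ncard, NS_eq_ncard]
  apply Set.ncard_congr (fun S _ => f S)
  · rintro S ⟨a1, a2, a3, a4⟩
    exact h1 S a1 a2 a3 a4
  · rintro S T ⟨a1, -⟩ ⟨b1, -⟩ h
    exact h2 S T a1 b1 h
  · rintro S' ⟨a1, a2, a3, a4⟩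
    obtain ⟨S, b1, b2, b3, b4, b5⟩ := h3 S' a1 a2 a3 a4
    exact ⟨S, ⟨b1, b2, b3, b4⟩, b5⟩

end general

section d2
variable {V : Type}

lemma cls_rst (G : SimpleGraph V) (A : Finset V) (x : V) (hx : x ∈ A)
    (hA : ∀ a ∈ A, a ∈ cls (rst G A) x) : cls (rst G A) x = (A : Set V) := by
  ext w
  constructor
  · intro hw
    obtain ⟨p⟩ : (rst G A).Reachable x w := hw
    have : ∀ (a b : V) (p : (rst G (A : Set V)).Walk a b), a ∈ A → b ∈ A := by
      intro a b p
      induction p with
      | nil => exact id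
      | cons h _ ih =>
        intro _
        apply ih
        unfold rst at h
        rw [SimpleGraph.fromRel_adj] at h
        rcases h.2 with h | h
        · exact h.2.2
        · exact h.2.1
    exact this x w p hx
  · intro hw
    exact hA w hw

lemma out_cases (v w : V) : ((Quot.out (s(v, w) : Sym2 V)).1 = v ∧ (Quot.out (s(v, w) : Sym2 V)).2 = w) ∨
    ((Quot.out (s(v, w) : Sym2 V)).1 = w ∧ (Quot.out (s(v, w) : Sym2 V)).2 = v) := by
  have h : (Quot.mk _ (Quot.out (s(v, w) : Sym2 V)) : Sym2 V) = s(v, w) := Quot.out_eq _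
  have h2 : (s((Quot.out (s(v, w) : Sym2 V)).1, (Quot.out (s(v, w) : Sym2 V)).2) : Sym2 V) = s(v, w) := h
  rw [Sym2.eq_iff] at h2
  exact h2

open Classical in
lemma gW_isST (G : SimpleGraph V) (A : Finset V)
    (hD : {e : Sym2 V | e ∈ G.edgeSet ∧ ∃ v ∈ e, v ∈ A}.Finite) (T : Finset (Sym2 V)) :
    IsST (gW G A hD) T ↔ T ∈ WTs G A := by
  have hcard : (gW G A hD).A.card = A.card + 1 := by
    show (insert none (A.image some)).card = A.card + 1
    rw [Finset.card_insert_of_notMem (by simp), Finset.card_image_of_injective _ (Option.some_injective _)]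
  have hsub : T ⊆ (gW G A hD).D ↔ ((T : Set (Sym2 V)) ⊆ G.edgeSet ∧ ∀ e ∈ T, ∃ v ∈ e, v ∈ A) := by
    show T ⊆ hD.toFinset ↔ _
    constructor
    · intro h
      constructor
      · intro e he
        have := h he
        rw [Set.Finite.mem_toFinset] at this
        exact this.1
      · intro e he
        have := h he
        rw [Set.Finite.mem_toFinset] at this
        exact this.2
    · rintro ⟨h1, h2⟩ e he
      rw [Set.Finite.mem_toFinset]
      exact ⟨h1 he, h2 e he⟩
  have hadj : ∀ v w : V, (SimpleGraph.fromEdgeSet (T : Set (Sym2 V))).Adj v w →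
      Rch (gW G A hD) T (piA A v) (piA A w) := by
    intro v w h
    rw [SimpleGraph.fromEdgeSet_adj] at h
    have h1 := rch_edge (gW G A hD) T (s(v, w)) h.1
    have h2 : Rch (gW G A hD) T (piA A (Quot.out (s(v, w) : Sym2 V)).1)
      (piA A (Quot.out (s(v, w) : Sym2 V)).2) := h1
    rcases out_cases v w with ⟨e1, e2⟩ | ⟨e1, e2⟩
    · rw [e1, e2] at h2; exact h2
    · rw [e1, e2] at h2; exact Relation.EqvGen.symm _ _ h2
  have hreach : ∀ v w : V, (SimpleGraph.fromEdgeSet (T : Set (Sym2 V))).Reachable v w →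
      Rch (gW G A hD) T (piA A v) (piA A w) := by
    rintro v w ⟨p⟩
    induction p with
    | nil => exact Relation.EqvGen.refl _
    | cons h _ ih => exact Relation.EqvGen.trans _ _ _ (hadj _ _ h) ih
  have hpA : ∀ v ∈ A, piA A v = some v := fun v hv => by unfold piA; rw [if_pos hv]
  have hpN : ∀ v, v ∉ A → piA A v = none := fun v hv => by unfold piA; rw [if_neg hv]
  unfold IsST WTs
  rw [Set.mem_ofPred_eq, hsub, hcard]
  constructor
  · rintro ⟨⟨h1, h2⟩, h3, h4⟩
    refine ⟨h1, h2, by omega, ?_⟩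
    intro v hv
    have hp := rch_prop (gW G A hD) T (fun o => ∀ v, o = some v →
      ∃ u, u ∉ A ∧ (SimpleGraph.fromEdgeSet (T : Set (Sym2 V))).Reachable v u) ?_
      (h4 (some v) (by show some v ∈ insert none (A.image some); simp [hv]) none
        (by show none ∈ insert none (A.image some); simp))
    · exact hp.2 (fun v h => by simp at h) v rfl
    · -- symmetric step
      have key : ∀ a b : V, s(a, b) ∈ T → (∀ v, piA A a = some v →
          ∃ u, u ∉ A ∧ (SimpleGraph.fromEdgeSet (T : Set (Sym2 V))).Reachable v u) →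
          (∀ v, piA A b = some v →
          ∃ u, u ∉ A ∧ (SimpleGraph.fromEdgeSet (T : Set (Sym2 V))).Reachable v u) := by
        intro a b hab ha w hw
        have hne : a ≠ b := by
          have := h1 hab
          rw [SimpleGraph.mem_edgeSet] at this
          exact this.ne
        have hadj' : (SimpleGraph.fromEdgeSet (T : Set (Sym2 V))).Adj b a := by
          rw [SimpleGraph.fromEdgeSet_adj]
          exact ⟨by rw [Sym2.eq_swap]; exact hab, hne.symm⟩
        by_cases hb : b ∈ A
        · rw [hpA b hb] at hw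
          obtain rfl : b = w := Option.some.inj hw
          by_cases haA : a ∈ A
          · obtain ⟨u, hu, hr⟩ := ha a (hpA a haA)
            exact ⟨u, hu, hadj'.reachable.trans hr⟩
          · exact ⟨a, haA, hadj'.reachable⟩
        · rw [hpN b hb] at hw
          simp at hw
      intro e he
      have heq : s((Quot.out e).1, (Quot.out e).2) = e := Quot.out_eq e
      have he1 : s((Quot.out e).1, (Quot.out e).2) ∈ T := by rw [heq]; exact he
      have he2 : s((Quot.out e).2, (Quot.out e).1) ∈ T := by rw [Sym2.eq_swap]; exact he1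
      exact ⟨key _ _ he1, key _ _ he2⟩
  · rintro ⟨h1, h2, h3, h4⟩
    refine ⟨⟨h1, h2⟩, by omega, ?_⟩
    have hn : ∀ a ∈ (gW G A hD).A, Rch (gW G A hD) T a none := by
      intro a ha
      have ha' : a ∈ insert none (A.image some) := ha
      rw [Finset.mem_insert, Finset.mem_image] at ha'
      rcases ha' with rfl | ⟨v, hv, rfl⟩
      · exact Relation.EqvGen.refl _
      · obtain ⟨u, hu, hr⟩ := h4 v hv
        have := hreach v u hr
        rwa [hpA v hv, hpN u hu] at this
    intro a ha b hb
    exact Relation.EqvGen.trans _ _ _ (hn a ha) (Relation.EqvGen.symm _ _ (hn b hb))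

theorem d2 (h : S_D1) : S_D2 := by
  classical
  intro V G A x hV hG hD hf hx hA
  have hcls : cls (rst G A) x = (A : Set V) := cls_rst G A x hx hA
  have hfA : hf.toFinset = A := by
    ext v; rw [Set.Finite.mem_toFinset, hcls]; simp
  have hDA : ∀ e : Sym2 V, e ∈ (gC (rst G A) x hf).D ↔ (e ∈ G.edgeSet ∧ ∀ v ∈ e, v ∈ A) := by
    intro e
    show e ∈ hf.toFinset.sym2.filter (fun e => e ∈ (rst G A).edgeSet) ↔ _
    rw [Finset.mem_filter, Finset.mem_sym2_iff, hfA]
    constructor
    · rintro ⟨h1, h2⟩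
      refine ⟨?_, h1⟩
      induction e using Sym2.ind with
      | _ a b =>
        rw [SimpleGraph.mem_edgeSet] at h2 ⊢
        unfold rst at h2
        rw [SimpleGraph.fromRel_adj] at h2
        rcases h2.2 with h2 | h2
        · exact h2.1
        · exact h2.1.symm
    · rintro ⟨h1, h2⟩
      refine ⟨h2, ?_⟩
      induction e using Sym2.ind with
      | _ a b =>
        rw [SimpleGraph.mem_edgeSet] at h1 ⊢
        unfold rst
        rw [SimpleGraph.fromRel_adj]
        exact ⟨h1.ne, Or.inl ⟨h1, h2 a (Sym2.mem_mk_left a b), h2 b (Sym2.mem_mk_right a b)⟩⟩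
  have hDW : ∀ e : Sym2 V, e ∈ (gW G A hD).D ↔ (e ∈ G.edgeSet ∧ ∃ v ∈ e, v ∈ A) := by
    intro e
    show e ∈ hD.toFinset ↔ _
    rw [Set.Finite.mem_toFinset]
    rfl
  -- the boundary edge
  obtain ⟨a0, b0, ha0, hb0, hab0⟩ : ∃ a b, a ∈ A ∧ b ∉ A ∧ G.Adj a b := by
    obtain ⟨y, hy⟩ : ∃ y, y ∉ A := by
      by_contra hcon
      push Not at hcon
      have : (Set.univ : Set V).Finite := A.finite_toSet.subset (fun v _ => hcon v)
      exact Set.infinite_univ this
    obtain ⟨p⟩ := hG.preconnected x y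
    obtain ⟨d, _, hd1, hd2⟩ := p.exists_boundary_dart (A : Set V) hx hy
    exact ⟨d.fst, d.snd, hd1, hd2, d.adj⟩
  set e0 : Sym2 V := s(a0, b0) with he0
  have he0D : e0 ∉ (gC (rst G A) x hf).D := by
    rw [hDA]
    rintro ⟨_, h2⟩
    exact hb0 (h2 b0 (Sym2.mem_mk_right a0 b0))
  have he0W : e0 ∈ (gW G A hD).D := by
    rw [hDW]
    exact ⟨hab0, a0, Sym2.mem_mk_left a0 b0, ha0⟩
  have hDsub : (gC (rst G A) x hf).D ⊆ (gW G A hD).D := by
    intro e he
    rw [hDA] at he
    rw [hDW]
    refine ⟨he.1, (Quot.out e).1, Sym2.out_fst_mem e, he.2 _ (Sym2.out_fst_mem e)⟩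
  have hpA : ∀ v ∈ A, piA A v = some v := fun v hv => by unfold piA; rw [if_pos hv]
  have hpN : ∀ v, v ∉ A → piA A v = none := fun v hv => by unfold piA; rw [if_neg hv]
  have hsD : ∀ e ∈ (gC (rst G A) x hf).D, (gW G A hD).s e = some ((gC (rst G A) x hf).s e) := by
    intro e he
    rw [hDA] at he
    exact hpA _ (he.2 _ (Sym2.out_fst_mem e))
  have htD : ∀ e ∈ (gC (rst G A) x hf).D, (gW G A hD).t e = some ((gC (rst G A) x hf).t e) := by
    intro e he
    rw [hDA] at he
    exact hpA _ (he.2 _ (Sym2.out_snd_mem e))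
  have he0s : ((gW G A hD).s e0 = some a0 ∧ (gW G A hD).t e0 = none) ∨
      ((gW G A hD).s e0 = none ∧ (gW G A hD).t e0 = some a0) := by
    rcases out_cases a0 b0 with ⟨e1, e2⟩ | ⟨e1, e2⟩
    · left
      constructor
      · show piA A (Quot.out e0).1 = some a0
        rw [he0, e1]; exact hpA _ ha0
      · show piA A (Quot.out e0).2 = none
        rw [he0, e2]; exact hpN _ hb0
    · right
      constructor
      · show piA A (Quot.out e0).1 = none
        rw [he0, e1]; exact hpN _ hb0
      · show piA A (Quot.out e0).2 = some a0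
        rw [he0, e2]; exact hpA _ ha0
  have hcardW : (gW G A hD).A.card = A.card + 1 := by
    show (insert none (A.image some)).card = A.card + 1
    rw [Finset.card_insert_of_notMem (by simp), Finset.card_image_of_injective _ (Option.some_injective _)]
  have hAC : (gC (rst G A) x hf).A = A := hfA
  have hAW : ∀ o, o ∈ (gW G A hD).A ↔ (o = none ∨ ∃ v ∈ A, o = some v) := by
    intro o
    show o ∈ insert none (A.image some) ↔ _
    rw [Finset.mem_insert, Finset.mem_image]
    constructor
    · rintro (h | ⟨v, hv, rfl⟩)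
      · exact Or.inl h
      · exact Or.inr ⟨v, hv, rfl⟩
    · rintro (h | ⟨v, hv, rfl⟩)
      · exact Or.inl h
      · exact Or.inr ⟨v, hv, rfl⟩
  -- forward
  have fwd : ∀ T : Finset (Sym2 V), IsST (gC (rst G A) x hf) T → IsST (gW G A hD) (insert e0 T) := by
    rintro T ⟨h1, h2, h3⟩
    have hnot : e0 ∉ T := fun hh => he0D (h1 hh)
    refine ⟨?_, ?_, ?_⟩
    · intro e he
      rw [Finset.mem_insert] at he
      rcases he with rfl | he
      · exact he0W
      · exact hDsub (h1 he)
    · rw [Finset.card_insert_of_notMem hnot, hcardW, h2, hAC]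
    · have hA1 : ∀ a ∈ A, ∀ b ∈ A, Rch (gW G A hD) (insert e0 T) (some a) (some b) := by
        intro a ha b hb
        apply rch_map (gC (rst G A) x hf) (gW G A hD) T (insert e0 T) some _
          (h3 a (by rw [hAC]; exact ha) b (by rw [hAC]; exact hb))
        intro e he
        rw [← hsD e (h1 he), ← htD e (h1 he)]
        exact rch_edge _ _ _ (Finset.mem_insert_of_mem he)
      have hA0 : Rch (gW G A hD) (insert e0 T) (some a0) none := by
        have := rch_edge (gW G A hD) (insert e0 T) e0 (Finset.mem_insert_self _ _)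
        rcases he0s with ⟨e1, e2⟩ | ⟨e1, e2⟩
        · rwa [e1, e2] at this
        · rw [e1, e2] at this
          exact Relation.EqvGen.symm _ _ this
      have hn : ∀ o ∈ (gW G A hD).A, Rch (gW G A hD) (insert e0 T) o none := by
        intro o ho
        rw [hAW] at ho
        rcases ho with rfl | ⟨v, hv, rfl⟩
        · exact Relation.EqvGen.refl _
        · exact Relation.EqvGen.trans _ _ _ (hA1 v hv a0 ha0) hA0
      intro a ha b hb
      exact Relation.EqvGen.trans _ _ _ (hn a ha) (Relation.EqvGen.symm _ _ (hn b hb))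
  -- backward
  have bwd : ∀ T : Finset (Sym2 V), IsST (gW G A hD) T →
      (∀ e ∈ T, e = e0 ∨ e ∈ (gC (rst G A) x hf).D) → e0 ∈ T ∧ IsST (gC (rst G A) x hf) (T.erase e0) := by
    rintro T ⟨h1, h2, h3⟩ hT
    have he0T : e0 ∈ T := by
      by_contra hnot
      have hp := rch_prop (gW G A hD) T (fun o => o = none) ?_
        (h3 none ((hAW _).2 (Or.inl rfl)) (some x) ((hAW _).2 (Or.inr ⟨x, hx, rfl⟩)))
      · exact absurd (hp.1 rfl) (by simp)
      · intro e he
        have he' : e ∈ (gC (rst G A) x hf).D := by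
          rcases hT e he with rfl | h
          · exact absurd he hnot
          · exact h
        rw [hsD e he', htD e he']
        simp
    refine ⟨he0T, ?_, ?_, ?_⟩
    · intro e he
      rw [Finset.mem_erase] at he
      rcases hT e he.2 with h | h
      · exact absurd h he.1
      · exact h
    · rw [hAC, Finset.card_erase_of_mem he0T]
      have := Finset.card_pos.2 ⟨e0, he0T⟩
      rw [hcardW] at h2
      omega
    · intro a ha b hb
      rw [hAC] at ha hb
      have := rch_map (gW G A hD) (gC (rst G A) x hf) T (T.erase e0) (fun o => o.getD a0) ?_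
        (h3 (some a) ((hAW _).2 (Or.inr ⟨a, ha, rfl⟩)) (some b) ((hAW _).2 (Or.inr ⟨b, hb, rfl⟩)))
      · simpa using this
      · intro e he
        by_cases hee : e = e0
        · subst hee
          rcases he0s with ⟨e1, e2⟩ | ⟨e1, e2⟩
          · rw [e1, e2]; exact Relation.EqvGen.refl _
          · rw [e1, e2]; exact Relation.EqvGen.refl _
        · have he' : e ∈ (gC (rst G A) x hf).D := by
            rcases hT e he with h | h
            · exact absurd h hee
            · exact h
          rw [hsD e he', htD e he']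
          exact rch_edge _ _ _ (Finset.mem_erase.2 ⟨hee, he⟩)
  obtain ⟨hS1, hS2, hS3, hS4, -⟩ := h V (rst G A) x hf
  -- the numbers
  have key : ∀ (P Q : Finset (Sym2 V) → Prop),
      (∀ T : Finset (Sym2 V), T ⊆ (gC (rst G A) x hf).D → (P (insert e0 T) ↔ Q T)) →
      NS (gW G A hD) ∅ ((gW G A hD).D \ insert e0 (gC (rst G A) x hf).D) P =
        NS (gC (rst G A) x hf) ∅ ∅ Q := by
    intro P Q hPQ
    symm
    apply NS_bij _ _ _ _ _ _ _ _ (fun T => insert e0 T)
    · intro T h2 _ _ h5
      have hst := fwd T h2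
      refine ⟨hst, Finset.empty_subset _, ?_, (hPQ T h2.1).2 h5⟩
      rw [Finset.disjoint_left]
      intro e he he2
      rw [Finset.mem_sdiff] at he2
      apply he2.2
      rw [Finset.mem_insert] at he ⊢
      rcases he with h | h
      · exact Or.inl h
      · exact Or.inr (h2.1 h)
    · intro T1 T2 hT1 hT2 heq
      have n1 : e0 ∉ T1 := fun hh => he0D (hT1.1 hh)
      have n2 : e0 ∉ T2 := fun hh => he0D (hT2.1 hh)
      have heq' : insert e0 T1 = insert e0 T2 := heq
      rw [← Finset.erase_insert n1, ← Finset.erase_insert n2, heq']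
    · intro T h2 _ h4 h5
      have hT' : ∀ e ∈ T, e = e0 ∨ e ∈ (gC (rst G A) x hf).D := by
        intro e he
        by_contra hcon
        have : e ∈ (gW G A hD).D \ insert e0 (gC (rst G A) x hf).D := by
          rw [Finset.mem_sdiff, Finset.mem_insert]
          exact ⟨h2.1 he, hcon⟩
        exact Finset.disjoint_left.1 h4 he this
      obtain ⟨h6, h7⟩ := bwd T h2 hT'
      refine ⟨T.erase e0, h7, Finset.empty_subset _, Finset.disjoint_empty_right _, ?_,
        Finset.insert_erase h6⟩
      rw [← hPQ _ h7.1, Finset.insert_erase h6]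
      exact h5
  have keytr := key tr tr (fun _ _ => Iff.rfl)
  have hposO : 0 < NS (gW G A hD) ∅ ((gW G A hD).D \ insert e0 (gC (rst G A) x hf).D) tr := by
    rw [keytr]; exact hS3
  have hncard : ∀ P : Finset (Sym2 V) → Prop, Set.ncard {T | T ∈ WTs G A ∧ P T} = NS (gW G A hD) ∅ ∅ P := by
    intro P
    rw [NS_eq_ncard]
    congr 1
    ext T
    rw [Set.mem_ofPred_eq, Set.mem_ofPred_eq, ← gW_isST G A hD T]
    constructor
    · rintro ⟨h1, h2⟩
      exact ⟨h1, Finset.empty_subset _, Finset.disjoint_empty_right _, h2⟩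
    · rintro ⟨h1, -, -, h2⟩
      exact ⟨h1, h2⟩
  refine ⟨?_, ?_, ?_, (gW G A hD).D \ insert e0 (gC (rst G A) x hf).D, ?_, hposO, ?_⟩
  · apply Set.Finite.subset ((gW G A hD).D.powerset.finite_toSet)
    intro T hT
    rw [← gW_isST G A hD T] at hT
    exact Finset.mem_coe.2 (Finset.mem_powerset.2 hT.1)
  · refine lt_of_lt_of_le hposO ?_
    rw [NS_eq_ncard, NS_eq_ncard]
    apply Set.ncard_le_ncard _ (NS_set_finite _ _)
    rintro T ⟨h1, h2, -, -⟩
    exact ⟨h1, h2, Finset.disjoint_empty_right _, trivial⟩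
  · intro F S
    unfold wr
    have h1 := hncard (agr F S)
    have h2 := hncard tr
    have h3 : {T | T ∈ WTs G A ∧ tr T} = WTs G A := by
      ext T; simp [tr]
    rw [h3] at h2
    rw [← h1, ← h2]
    rfl
  · intro e he hcon
    rw [Finset.mem_sdiff] at hcon
    exact hcon.2 (Finset.mem_insert_of_mem he)
  · intro F S hF
    rw [keytr, key (agr F S) (agr F S) ?_, hS4 F S]
    intro T hT
    unfold agr
    apply forall_congr'
    intro e
    apply imp_congr_right
    intro he
    have hne : e ≠ e0 := by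
      rintro rfl
      exact he0D (hF _ he)
    rw [Finset.mem_insert]
    constructor
    · intro h
      rw [← h]
      exact ⟨Or.inr, fun h' => h'.resolve_left hne⟩
    · intro h
      rw [← h]
      exact ⟨fun h' => h'.resolve_left hne, Or.inr⟩

end d2

end Pool.Agent.Y782.WU
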