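import Pool.Agent.Y782.WU.Fin

set_option autoImplicit false

open MeasureTheory ProbabilityTheory Filter Topology
open scoped ENNReal NNReal BigOperators unitInterval

namespace Pool.Agent.Y782.WU

/-- finite graphs -/
def S_FINITE : Prop :=
  ∀ (V : Type) [Finite V] [Nonempty V],
    ∃ Φ : SimpleGraph V → (V → I) → SimpleGraph V,
      (∀ (τ : Equiv.Perm V) (g : SimpleGraph V) (U : V → I),
        Φ (g.comap τ) (fun v => U (τ v)) = (Φ g U).comap τ) ∧
      Measurable (fun p : SimpleGraph V × (V → I) => Φ p.1 p.2) ∧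
      ∀ G : SimpleGraph V, G.Connected →
        (∀ᵐ U ∂(Measure.infinitePi (fun _ : V => (volume : Measure I))), Φ G U ≤ G) ∧
        ∀ F S : Finset (Sym2 V), (F : Set (Sym2 V)) ⊆ G.edgeSet →
          (Measure.infinitePi (fun _ : V => (volume : Measure I))).real
              {U | ∀ e ∈ F, (e ∈ (Φ G U).edgeSet ↔ e ∈ S)} =
            (Set.ncard {t : SimpleGraph V | t ≤ G ∧ t.IsTree ∧ ∀ e ∈ F, (e ∈ t.edgeSet ↔ e ∈ S)} : ℝ) /
              (Set.ncard {t : SimpleGraph V | t ≤ G ∧ t.IsTree} : ℝ)

/-- the sequence `⊥, G, G, ...` -/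
def HH {V : Type} (G : SimpleGraph V) : ℕ → SimpleGraph V
  | 0 => ⊥
  | _ + 1 => G

lemma HH_good {V : Type} [Finite V] (G : SimpleGraph V) : GoodH G (HH G) := by
  refine ⟨rfl, ?_, ?_, ?_⟩
  · apply monotone_nat_of_le_succ
    intro n
    cases n with
    | zero => exact bot_le
    | succ n => exact le_rfl
  · intro n x
    exact Set.toFinite _
  · intro x y
    constructor
    · intro h
      exact ⟨1, h⟩
    · rintro ⟨n, hn⟩
      cases n with
      | zero => exact absurd hn (by simp [HH])
      | succ n => exact hn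

lemma STs_conn {V : Type} (G : SimpleGraph V) (hG : G.Connected) (x : V) :
    STs G x = {t : SimpleGraph V | t ≤ G ∧ t.IsTree} := by
  have hc : ∀ a, a ∈ cls G x := fun a => hG.preconnected x a
  ext t
  constructor
  · rintro ⟨h1, -, h3, h4⟩
    refine ⟨h1, ⟨?_, h3⟩⟩
    haveI : Nonempty V := ⟨x⟩
    refine SimpleGraph.Connected.mk ?_
    intro a b
    exact (h4 a (hc a)).symm.trans (h4 b (hc b))
  · rintro ⟨h1, h2⟩
    exact ⟨h1, fun a _ _ => hc a, h2.IsAcyclic, fun a _ => h2.isConnected.preconnected x a⟩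

theorem finite_case (hKER : S_KER) (hLAB : S_LAB) (hINJ : S_INJ)
    (hLAW : S_LAW) (hLM : S_LM) (hMS4 : S_MS4) (hEQ2 : S_EQ2) : S_FINITE := by
  intro V _ _
  haveI : Countable V := Finite.to_countable
  obtain ⟨Kf, hK⟩ := hKER
  obtain ⟨dec, hd, hlaw⟩ := hLAB
  have hHHmeas : Measurable (fun g : SimpleGraph V => HH g) := by
    refine measurable_pi_lambda _ (fun n => ?_)
    cases n with
    | zero => exact measurable_const
    | succ n => exact measurable_id
  refine ⟨fun g U => Tlim Kf (HH g) (dd dec U).1 (dd dec U).2.2, ?_, ?_, ?_⟩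
  · intro τ g U
    have h1 : HH (g.comap τ) = fun n => (HH g n).comap τ := by
      funext n
      cases n with
      | zero =>
        ext a b
        simp [HH]
      | succ n => rfl
    show Tlim Kf (HH (g.comap τ)) _ _ = _
    rw [h1]
    exact hEQ2 V τ Kf (HH g) (fun v => (dec (U v)).1) (fun n v => (dec (U v)).2.2 n)
  · have h1 : Measurable (fun p : SimpleGraph V × (V → I) =>
        (HH p.1, (dd dec p.2).1, (dd dec p.2).2.2)) := by
      refine Measurable.prodMk (hHHmeas.comp measurable_fst) (Measurable.prodMk ?_ ?_)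
      · exact ((dd_meas dec hd).comp measurable_snd).fst
      · exact ((dd_meas dec hd).comp measurable_snd).snd.snd
    exact (hMS4 V Kf hK).comp h1
  · intro g hconn
    have hlawV := hlaw V
    set μ : Measure (V → I) := Measure.infinitePi (fun _ : V => (volume : Measure I)) with hμ
    set μ' : Measure (V → ℕ → I) :=
      Measure.infinitePi (fun _ : V => Measure.infinitePi (fun _ : ℕ => (volume : Measure I))) with hμ'
    haveI : IsProbabilityMeasure μ := by rw [hμ]; infer_instance
    haveI : IsProbabilityMeasure μ' := by rw [hμ']; infer_instance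
    haveI : IsProbabilityMeasure (MU V) := by unfold MU; infer_instance
    have hmap : Measure.map (dd dec) μ = μ.prod (μ'.prod (MU V)) := hlawV
    have hinj : ∀ᵐ o ∂μ, Function.Injective o := hINJ V
    have hgood : GoodH g (HH g) := HH_good g
    obtain ⟨x0⟩ : Nonempty V := inferInstance
    constructor
    · have ha : ∀ᵐ z ∂(μ.prod (μ'.prod (MU V))), Function.Injective z.1 :=
        (Measure.quasiMeasurePreserving_fst).ae hinj
      have hc : ∀ᵐ z ∂(Measure.map (dd dec) μ), Function.Injective z.1 := by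
        rw [hmap]
        exact ha
      have hd' := ae_of_ae_map (dd_meas dec hd).aemeasurable hc
      filter_upwards [hd'] with U hU
      intro a b hab
      have hT := (hLAW V Kf (HH g) (dd dec U).1 hK hgood.1 hgood.2.1 hgood.2.2.1 hU).1
        (dd dec U).2.2
      have key : ∀ a b : V, (∃ N, ∀ n ≥ N,
          (Tn Kf (HH g) (dd dec U).1 (dd dec U).2.2 n).Adj a b) → g.Adj a b := by
        rintro a b ⟨N, hN⟩
        have hN' := hN N le_rfl
        exact (hgood.2.2.2 a b).mpr ⟨N, (hT N).1.1 hN'⟩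
      have hab' : (Tlim Kf (HH g) (dd dec U).1 (dd dec U).2.2).Adj a b := hab
      unfold Tlim at hab'
      rw [SimpleGraph.fromRel_adj] at hab'
      rcases hab'.2 with h | h
      · exact key a b h
      · exact (key b a h).symm
    · intro F S hF
      set L : ℝ := fr g x0 F S with hL
      have hval : ∀ o : V → I, Function.Injective o →
          (MU V) {u | ∀ e ∈ F, (e ∈ (Tlim Kf (HH g) o u).edgeSet ↔ e ∈ S)} =
            ENNReal.ofReal L := by
        intro o ho
        have t1 := hLM V Kf g (HH g) o hK hconn hgood ho F S hF x0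
        have t2 : Tendsto (fun n => fr (HH g n) x0 F S) atTop (𝓝 L) := by
          apply tendsto_const_nhds.congr'
          filter_upwards [eventually_ge_atTop 1] with n hn
          obtain ⟨m, rfl⟩ : ∃ m, n = m + 1 := ⟨n - 1, by omega⟩
          rfl
        have := tendsto_nhds_unique t1 t2
        rw [← this, measureReal_def, ENNReal.ofReal_toReal (measure_ne_top _ _)]
      have hfix : Measurable (fun z : (V → I) × (V → ℕ → I) × (ℕ → V → I) =>
          Tlim Kf (HH g) z.1 z.2.2) :=
        (hMS4 V Kf hK).comp (measurable_const.prodMk (measurable_fst.prodMk measurable_snd.snd))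
      have hset := cond_meas hfix F S
      have e1 : μ {U | ∀ e ∈ F, (e ∈ (Tlim Kf (HH g) (dd dec U).1 (dd dec U).2.2).edgeSet ↔ e ∈ S)} =
          ENNReal.ofReal L := by
        have e2 : {U | ∀ e ∈ F, (e ∈ (Tlim Kf (HH g) (dd dec U).1 (dd dec U).2.2).edgeSet ↔ e ∈ S)} =
            dd dec ⁻¹' {z : (V → I) × (V → ℕ → I) × (ℕ → V → I) |
              ∀ e ∈ F, (e ∈ (Tlim Kf (HH g) z.1 z.2.2).edgeSet ↔ e ∈ S)} := rfl
        rw [e2, ← Measure.map_apply (dd_meas dec hd) hset, hmap, Measure.prod_apply hset]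
        have e3 : ∀ᵐ o ∂μ, (μ'.prod (MU V)) (Prod.mk o ⁻¹' {z : (V → I) × (V → ℕ → I) × (ℕ → V → I) |
              ∀ e ∈ F, (e ∈ (Tlim Kf (HH g) z.1 z.2.2).edgeSet ↔ e ∈ S)}) =
            ENNReal.ofReal L := by
          filter_upwards [hinj] with o ho
          have hset2 : MeasurableSet (Prod.mk o ⁻¹' {z : (V → I) × (V → ℕ → I) × (ℕ → V → I) |
              ∀ e ∈ F, (e ∈ (Tlim Kf (HH g) z.1 z.2.2).edgeSet ↔ e ∈ S)}) :=
            measurable_prodMk_left hset
          rw [Measure.prod_apply hset2]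
          have e4 : ∀ᵐ r ∂μ', (MU V) (Prod.mk r ⁻¹' (Prod.mk o ⁻¹'
              {z : (V → I) × (V → ℕ → I) × (ℕ → V → I) |
              ∀ e ∈ F, (e ∈ (Tlim Kf (HH g) z.1 z.2.2).edgeSet ↔ e ∈ S)})) =
              ENNReal.ofReal L := ae_of_all _ (fun r => hval o ho)
          rw [lintegral_congr_ae e4]
          simp
        rw [lintegral_congr_ae e3]
        simp
      have hL0 : 0 ≤ L := by
        rw [hL]; unfold fr; positivity
      have e5 : μ.real {U | ∀ e ∈ F, (e ∈ (Tlim Kf (HH g) (dd dec U).1 (dd dec U).2.2).edgeSet ↔ e ∈ S)}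
          = L := by
        rw [measureReal_def, e1, ENNReal.toReal_ofReal hL0]
      rw [e5, hL]
      unfold fr
      rw [STs_conn g hconn x0]
      have : {t : SimpleGraph V | t ∈ {t : SimpleGraph V | t ≤ g ∧ t.IsTree} ∧
          ∀ e ∈ F, (e ∈ t.edgeSet ↔ e ∈ S)} =
          {t : SimpleGraph V | t ≤ g ∧ t.IsTree ∧ ∀ e ∈ F, (e ∈ t.edgeSet ↔ e ∈ S)} := by
        ext t
        exact and_assoc
      rw [this]

end Pool.Agent.Y782.WU
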