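import Pool.Agent.Y782.WU.Fin
import Pool.Agent.Y782.WU.FinCase
import Pool.Agent.Y782.WU.D2
import Pool.Agent.Y909.WU.MT
import Pool.Agent.Y420.WU.RAY
import Pool.Agent.Y908.WU.FM
import Pool.Agent.Y908.WU.NSB
import Pool.Agent.Y908.WU.CP
import Pool.Agent.Y143.WU.EN
import Pool.Agent.Y46.WU.D1
import Pool.Agent.Y10.WU.Ker
import Pool.Agent.Y857.WU.GR
import Pool.Agent.Y857.WU.TF
import Pool.Agent.Y826.WU.C3
import Pool.Agent.Y848.WU.CV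
import Pool.Agent.Y168.WU.Race
import Pool.Agent.Y168.WU.Exh
import Pool.Agent.Y41.WU.Law
import Pool.Agent.Y868.WU.LM
import Pool.Agent.Y498.WU.MS12
import Pool.Agent.Y371.WU.MS34
import Pool.Agent.Y380.WU.EQ1
import Pool.Agent.Y74.WU.EQ2
import Pool.Agent.Y284.WU.Lab
import Pool.Agent.Y764.WU.Ks

set_option autoImplicit false

namespace Pool.Agent.Y782.WU

theorem hl_all : S_HL :=
  Pool.Agent.Y908.WU.hl (Pool.Agent.Y908.WU.dom (Pool.Agent.Y908.WU.fm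
    (Pool.Agent.Y420.WU.ray Pool.Agent.Y909.WU.mt)))

theorem cv_all : S_CV :=
  Pool.Agent.Y848.WU.cv (Pool.Agent.Y908.WU.cp hl_all) Pool.Agent.Y46.WU.d1
    (d2 Pool.Agent.Y46.WU.d1)
    (Pool.Agent.Y826.WU.c3 (Pool.Agent.Y143.WU.en Pool.Agent.Y909.WU.mt) Pool.Agent.Y857.WU.tf
      Pool.Agent.Y46.WU.d1 (d2 Pool.Agent.Y46.WU.d1))

theorem main_all : S_MAIN :=
  final (Pool.Agent.Y10.WU.ker hl_all) Pool.Agent.Y284.WU.lab Pool.Agent.Y284.WU.inj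
    (Pool.Agent.Y764.WU.ks Pool.Agent.Y857.WU.gr Pool.Agent.Y498.WU.ms1)
    (Pool.Agent.Y168.WU.ex Pool.Agent.Y168.WU.rc Pool.Agent.Y857.WU.gr) cv_all
    Pool.Agent.Y41.WU.law (Pool.Agent.Y868.WU.lm Pool.Agent.Y41.WU.law) Pool.Agent.Y498.WU.ms2
    Pool.Agent.Y371.WU.ms4 Pool.Agent.Y380.WU.eq1 Pool.Agent.Y74.WU.eq2

theorem finite_all : S_FINITE :=
  finite_case (Pool.Agent.Y10.WU.ker hl_all) Pool.Agent.Y284.WU.lab Pool.Agent.Y284.WU.inj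
    Pool.Agent.Y41.WU.law (Pool.Agent.Y868.WU.lm Pool.Agent.Y41.WU.law)
    Pool.Agent.Y371.WU.ms4 Pool.Agent.Y74.WU.eq2

end Pool.Agent.Y782.WU
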