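import Mathlib

set_option autoImplicit false

open MeasureTheory ProbabilityTheory Filter Topology
open scoped ENNReal NNReal BigOperators unitInterval

namespace Pool.Agent.Y782.WU

/-! ## Measurable structure on graphs -/

section ms
variable {V : Type}

/-- the sigma-algebra on graphs generated by the events `{x ~ y}` -/
instance gms : MeasurableSpace (SimpleGraph V) :=
  MeasurableSpace.comap (fun (G : SimpleGraph V) (x y : V) => G.Adj x y) inferInstance

end ms

/-! ## Random walk -/

section walk
variable {V : Type}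

/-- the degree -/
noncomputable def dgr (G : SimpleGraph V) (v : V) : ℕ := (G.neighborSet v).ncard

open Classical in
/-- transition probabilities of the simple random walk -/
noncomputable def stp (G : SimpleGraph V) (v w : V) : ℝ≥0∞ :=
  if G.Adj v w then (dgr G v : ℝ≥0∞)⁻¹ else 0

open Classical in
/-- `n`-step transition probabilities -/
noncomputable def pn (G : SimpleGraph V) : ℕ → V → V → ℝ≥0∞
  | 0, v, w => if v = w then 1 else 0
  | n + 1, v, w => ∑' z, stp G v z * pn G n z w

/-- recurrence: the expected number of returns is infinite -/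
def Rec (G : SimpleGraph V) : Prop := ∀ v, ∑' n, pn G n v v = ⊤

/-- killing rates -/
noncomputable def kp (k : ℕ) : ℝ≥0∞ := ((k : ℝ≥0∞) + 2)⁻¹

/-- law of the position at the killing time, killing rate `kp k` -/
noncomputable def ab (G : SimpleGraph V) (k : ℕ) (v w : V) : ℝ≥0∞ :=
  ∑' n : ℕ, kp k * (1 - kp k) ^ n * pn G n v w

/-- `ℓ¹` distance -/
noncomputable def l1 (a b : V → ℝ≥0∞) : ℝ≥0∞ := ∑' c, ((a c - b c) + (b c - a c))

open Classical in
/-- sum of the distances of the kernels at `v` and at its neighbours -/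
noncomputable def qq (G : SimpleGraph V) (k : ℕ) (v : V) : ℝ≥0∞ :=
  ∑' w, if G.Adj v w then l1 (ab G k v) (ab G k w) else 0

end walk

/-! ## Races -/

section race
variable {V : Type}

/-- exponential clock -/
noncomputable def er (x : I) : ℝ := - Real.log (x : ℝ)

/-- `c` wins the race with rates `a` -/
def win (a : V → ℝ≥0∞) (E : V → ℝ) (c : V) : Prop :=
  0 < (a c).toReal ∧ ∀ c', c' ≠ c → (a c').toReal * E c < (a c).toReal * E c'

/-- the two races have the same winner -/
def sm (a b : V → ℝ≥0∞) (E : V → ℝ) : Prop := ∃ c, win a E c ∧ win b E c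

/-- the nested subgraphs: killing rates `kp (ks n)`, clocks `er (r c n)` -/
def Hg (ks : ℕ → ℕ) (G : SimpleGraph V) (r : V → ℕ → I) : ℕ → SimpleGraph V
  | 0 => ⊥
  | n + 1 => SimpleGraph.fromRel (fun v w => G.Adj v w ∧
      ∀ m ≥ n, sm (ab G (ks m) v) (ab G (ks m) w) (fun c => er (r c m)))

end race

/-! ## Trees in classes -/

section trees
variable {V : Type}

/-- the connected component of `x` -/
def cls (H : SimpleGraph V) (x : V) : Set V := {w | H.Reachable x w}

/-- spanning trees of the component of `x` in `H` -/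
def STs (H : SimpleGraph V) (x : V) : Set (SimpleGraph V) :=
  {t | t ≤ H ∧ (∀ a b, t.Adj a b → a ∈ cls H x) ∧ t.IsAcyclic ∧ ∀ a ∈ cls H x, t.Reachable x a}

/-- maximal spanning forests -/
def MSF (H : SimpleGraph V) : Set (SimpleGraph V) :=
  {t | t ≤ H ∧ t.IsAcyclic ∧ ∀ a b, H.Reachable a b → t.Reachable a b}

/-- part of `t` inside the set `C` -/
def rst (t : SimpleGraph V) (C : Set V) : SimpleGraph V :=
  SimpleGraph.fromRel (fun a b => t.Adj a b ∧ a ∈ C ∧ b ∈ C)

/-- proportion of the spanning trees of the component of `x` in `H` whose set of edges agrees with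
`S` on `F` -/
noncomputable def fr (H : SimpleGraph V) (x : V) (F S : Finset (Sym2 V)) : ℝ :=
  (Set.ncard {t | t ∈ STs H x ∧ ∀ e ∈ F, (e ∈ t.edgeSet ↔ e ∈ S)} : ℝ) / (Set.ncard (STs H x) : ℝ)

/-- spanning trees of the graph obtained from `G` by identifying all vertices outside `A` -/
def WTs (G : SimpleGraph V) (A : Finset V) : Set (Finset (Sym2 V)) :=
  {T | (T : Set (Sym2 V)) ⊆ G.edgeSet ∧ (∀ e ∈ T, ∃ v ∈ e, v ∈ A) ∧ T.card = A.card ∧
    ∀ v ∈ A, ∃ u, u ∉ A ∧ (SimpleGraph.fromEdgeSet (T : Set (Sym2 V))).Reachable v u}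

/-- proportion of the wired spanning trees which agree with `S` on `F` -/
noncomputable def wr (G : SimpleGraph V) (A : Finset V) (F S : Finset (Sym2 V)) : ℝ :=
  (Set.ncard {T | T ∈ WTs G A ∧ ∀ e ∈ F, (e ∈ T ↔ e ∈ S)} : ℝ) / (Set.ncard (WTs G A) : ℝ)

end trees

/-! ## The coupling step -/

/-- type of the finite coupling functions -/
abbrev KT : Type := (k : ℕ) → SimpleGraph (Fin k) → SimpleGraph (Fin k) → SimpleGraph (Fin k) → I →
  SimpleGraph (Fin k)

/-- monotone couplings: `Kf k h h' t u` is a spanning tree of `h'` whose part in `h` is contained in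
`t`, and if `t` is uniform on `MSF h` and `u` is uniform then it is uniform on `MSF h'` -/
structure IsKer (Kf : KT) : Prop where
  meas : ∀ (k : ℕ) (h h' t t' : SimpleGraph (Fin k)), MeasurableSet {u : I | Kf k h h' t u = t'}
  mem : ∀ (k : ℕ) (h h' t : SimpleGraph (Fin k)) (u : I), h ≤ h' → h'.Connected → t ∈ MSF h →
    Kf k h h' t u ∈ MSF h'
  mono : ∀ (k : ℕ) (h h' t : SimpleGraph (Fin k)) (u : I), h ≤ h' → h'.Connected → t ∈ MSF h →
    Kf k h h' t u ⊓ h ≤ t
  unif : ∀ (k : ℕ) (h h' t' : SimpleGraph (Fin k)), h ≤ h' → h'.Connected → t' ∈ MSF h' →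
    ∑' t : {t // t ∈ MSF h}, (volume : Measure I).real {u | Kf k h h' t.1 u = t'} =
      (Set.ncard (MSF h) : ℝ) / (Set.ncard (MSF h') : ℝ)

section step
variable {V : Type}

/-- rank of `w` in the component of `x` -/
noncomputable def rk (H : SimpleGraph V) (o : V → I) (x w : V) : ℕ :=
  Set.ncard {z | H.Reachable x z ∧ o z < o w}

/-- the graph `A` on the component of `x` in `H`, transported to `Fin k` by the ranks -/
noncomputable def pull (H : SimpleGraph V) (o : V → I) (x : V) (A : SimpleGraph V) :
    SimpleGraph (Fin (Set.ncard (cls H x))) :=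
  SimpleGraph.fromRel (fun a b => ∃ v w, H.Reachable x v ∧ H.Reachable x w ∧
    rk H o x v = (a : ℕ) ∧ rk H o x w = (b : ℕ) ∧ A.Adj v w)

/-- one step of the construction -/
noncomputable def stepT (Kf : KT) (H H' T : SimpleGraph V) (o u : V → I) : SimpleGraph V :=
  SimpleGraph.fromRel (fun x y => H'.Reachable x y ∧ ∃ m, H'.Reachable x m ∧ rk H' o x m = 0 ∧
    ∃ a b : Fin (Set.ncard (cls H' x)), rk H' o x x = (a : ℕ) ∧ rk H' o x y = (b : ℕ) ∧
      (Kf _ (pull H' o x H) (pull H' o x H') (pull H' o x T) (u m)).Adj a b)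

/-- the sequence of forests -/
noncomputable def Tn (Kf : KT) (H : ℕ → SimpleGraph V) (o : V → I) (u : ℕ → V → I) :
    ℕ → SimpleGraph V
  | 0 => ⊥
  | n + 1 => stepT Kf (H n) (H (n + 1)) (Tn Kf H o u n) o (u n)

/-- the limit -/
noncomputable def Tlim (Kf : KT) (H : ℕ → SimpleGraph V) (o : V → I) (u : ℕ → V → I) :
    SimpleGraph V :=
  SimpleGraph.fromRel (fun x y => ∃ N, ∀ n ≥ N, (Tn Kf H o u n).Adj x y)

/-- the factor map -/
noncomputable def Phi (Kf : KT) (dec : I → I × (ℕ → I) × (ℕ → I)) (ks : ℕ → ℕ)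
    (G : SimpleGraph V) (U : V → I) : SimpleGraph V :=
  Tlim Kf (Hg ks G (fun v => (dec (U v)).2.1)) (fun v => (dec (U v)).1)
    (fun n v => (dec (U v)).2.2 n)

end step

/-! ## Finite multigraphs -/

/-- a finite multigraph with vertex set `A` and edge set `D`: the edge `e` joins `s e` and `t e` -/
structure FG (W E : Type) where
  A : Finset W
  D : Finset E
  s : E → W
  t : E → W
  hs : ∀ e ∈ D, s e ∈ A
  ht : ∀ e ∈ D, t e ∈ A

section mg
variable {W E : Type}

/-- connection by the edges in `S` -/
def Rch (M : FG W E) (S : Finset E) : W → W → Prop :=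
  Relation.EqvGen (fun a b => ∃ e ∈ S, M.s e = a ∧ M.t e = b)

/-- spanning trees -/
def IsST (M : FG W E) (S : Finset E) : Prop :=
  S ⊆ M.D ∧ S.card + 1 = M.A.card ∧ ∀ a ∈ M.A, ∀ b ∈ M.A, Rch M S a b

open Classical in
/-- number of spanning trees which contain `Y`, avoid `O` and satisfy `P` -/
noncomputable def NS (M : FG W E) (Y O : Finset E) (P : Finset E → Prop) : ℕ :=
  (M.D.powerset.filter (fun S : Finset E => IsST M S ∧ Y ⊆ S ∧ Disjoint S O ∧ P S)).card

/-- agreement with `S` on `F` -/
def agr (F S : Finset E) (T : Finset E) : Prop := ∀ e ∈ F, (e ∈ T ↔ e ∈ S)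

/-- no condition -/
def tr : Finset E → Prop := fun _ => True

end mg

section dict
variable {V : Type}

open Classical in
/-- the component of `x` in `H` as a finite multigraph -/
noncomputable def gC (H : SimpleGraph V) (x : V) (hf : (cls H x).Finite) : FG V (Sym2 V) where
  A := hf.toFinset
  D := hf.toFinset.sym2.filter (fun e => e ∈ H.edgeSet)
  s := fun e => (Quot.out e).1
  t := fun e => (Quot.out e).2
  hs := by
    intro e he
    rw [Finset.mem_filter, Finset.mem_sym2_iff] at he
    exact he.1 _ (Sym2.out_fst_mem e)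
  ht := by
    intro e he
    rw [Finset.mem_filter, Finset.mem_sym2_iff] at he
    exact he.1 _ (Sym2.out_snd_mem e)

open Classical in
/-- the projection which identifies all vertices outside `A` -/
noncomputable def piA (A : Finset V) (v : V) : Option V := if v ∈ A then some v else none

open Classical in
/-- the wired graph as a finite multigraph -/
noncomputable def gW (G : SimpleGraph V) (A : Finset V)
    (hD : {e : Sym2 V | e ∈ G.edgeSet ∧ ∃ v ∈ e, v ∈ A}.Finite) : FG (Option V) (Sym2 V) where
  A := insert none (A.image some)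
  D := hD.toFinset
  s := fun e => piA A (Quot.out e).1
  t := fun e => piA A (Quot.out e).2
  hs := by
    intro e _
    unfold piA
    split_ifs with h
    · simp [h]
    · simp
  ht := by
    intro e _
    unfold piA
    split_ifs with h
    · simp [h]
    · simp

end dict

end Pool.Agent.Y782.WU
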