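import Pool.Agent.Y782.WU.Stm

set_option autoImplicit false

open MeasureTheory ProbabilityTheory Filter Topology
open scoped ENNReal NNReal BigOperators unitInterval

namespace Pool.Agent.Y782.WU

lemma phi_comap (hEQ1 : S_EQ1) (hEQ2 : S_EQ2) {V : Type} (Kf : KT)
    (dec : I → I × (ℕ → I) × (ℕ → I)) (ks : ℕ → ℕ) (τ : Equiv.Perm V) (g : SimpleGraph V)
    (U : V → I) :
    Phi Kf dec ks (g.comap τ) (fun v => U (τ v)) = (Phi Kf dec ks g U).comap τ := by
  unfold Phi
  have h1 : (Hg ks (g.comap τ) (fun v => (dec (U (τ v))).2.1)) =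
      fun n => (Hg ks g (fun v => (dec (U v)).2.1) n).comap τ := by
    funext n
    exact hEQ1 V τ ks g (fun v => (dec (U v)).2.1) n
  rw [h1]
  exact hEQ2 V τ Kf (Hg ks g (fun v => (dec (U v)).2.1)) (fun v => (dec (U v)).1)
    (fun n v => (dec (U v)).2.2 n)

/-- the three labels -/
noncomputable def dd {V : Type} (dec : I → I × (ℕ → I) × (ℕ → I)) (U : V → I) :
    (V → I) × (V → ℕ → I) × (ℕ → V → I) :=
  ((fun v => (dec (U v)).1), (fun v => (dec (U v)).2.1), (fun (n : ℕ) v => (dec (U v)).2.2 n))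

lemma dd_meas {V : Type} (dec : I → I × (ℕ → I) × (ℕ → I)) (hd : Measurable dec) :
    Measurable (dd (V := V) dec) := by
  have h0 : ∀ v : V, Measurable (fun U : V → I => dec (U v)) :=
    fun v => hd.comp (measurable_pi_apply v)
  refine Measurable.prodMk ?_ (Measurable.prodMk ?_ ?_)
  · exact measurable_pi_lambda _ (fun v => (h0 v).fst)
  · exact measurable_pi_lambda _ (fun v => (h0 v).snd.fst)
  · refine measurable_pi_lambda _ (fun n => measurable_pi_lambda _ (fun v => ?_))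
    exact (measurable_pi_apply n).comp (h0 v).snd.snd

lemma phi_meas (hMS2 : S_MS2) (hMS4 : S_MS4) {V : Type} [Countable V] (Kf : KT) (hK : IsKer Kf)
    (dec : I → I × (ℕ → I) × (ℕ → I)) (hd : Measurable dec) (ks : ℕ → ℕ) :
    Measurable (fun p : SimpleGraph V × (V → I) => Phi Kf dec ks p.1 p.2) := by
  have h1 : Measurable (fun p : SimpleGraph V × (V → I) =>
      ((fun n => Hg ks p.1 (dd dec p.2).2.1 n), (dd dec p.2).1, (dd dec p.2).2.2)) := by
    refine Measurable.prodMk ?_ (Measurable.prodMk ?_ ?_)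
    · refine measurable_pi_lambda _ (fun n => ?_)
      exact (hMS2 V ks n).comp (measurable_fst.prodMk
        (((dd_meas dec hd).comp measurable_snd).snd.fst))
    · exact ((dd_meas dec hd).comp measurable_snd).fst
    · exact ((dd_meas dec hd).comp measurable_snd).snd.snd
  exact (hMS4 V Kf hK).comp h1

lemma adj_meas {V α : Type} [MeasurableSpace α] {f : α → SimpleGraph V} (hf : Measurable f)
    (e : Sym2 V) : MeasurableSet {a | e ∈ (f a).edgeSet} := by
  induction e using Sym2.ind with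
  | _ x y =>
    have h1 : Measurable (fun a => (fun (G : SimpleGraph V) (x y : V) => G.Adj x y) (f a)) :=
      (comap_measurable _).comp hf
    have h2 : Measurable (fun a => (f a).Adj x y) :=
      (measurable_pi_apply y).comp ((measurable_pi_apply x).comp h1)
    exact measurableSet_setOf.mpr h2

lemma cond_meas {V α : Type} [MeasurableSpace α] {f : α → SimpleGraph V} (hf : Measurable f)
    (F S : Finset (Sym2 V)) :
    MeasurableSet {a | ∀ e ∈ F, (e ∈ (f a).edgeSet ↔ e ∈ S)} := by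
  have : {a | ∀ e ∈ F, (e ∈ (f a).edgeSet ↔ e ∈ S)} =
      ⋂ e ∈ F, {a | (e ∈ (f a).edgeSet ↔ e ∈ S)} := by
    ext a; simp
  rw [this]
  refine Finset.measurableSet_biInter F (fun e _ => ?_)
  by_cases h : e ∈ S
  · simp only [h, iff_true]
    exact adj_meas hf e
  · simp only [h, iff_false]
    exact (adj_meas hf e).compl

theorem final (hKER : S_KER) (hLAB : S_LAB) (hINJ : S_INJ) (hKS : S_KS) (hEX : S_EX) (hCV : S_CV)
    (hLAW : S_LAW) (hLM : S_LM) (hMS2 : S_MS2) (hMS4 : S_MS4) (hEQ1 : S_EQ1) (hEQ2 : S_EQ2) :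
    S_MAIN := by
  intro V Ω _ _ P _ G ρ hG hρ hok hrec huni
  obtain ⟨Kf, hK⟩ := hKER
  obtain ⟨dec, hd, hlaw⟩ := hLAB
  obtain ⟨ks, hks⟩ := hKS V Ω P G ρ hG hρ hok hrec huni
  refine ⟨Phi Kf dec ks, fun τ g U => phi_comap hEQ1 hEQ2 Kf dec ks τ g U,
    phi_meas hMS2 hMS4 Kf hK dec hd ks, ?_⟩
  have hlawV := hlaw V
  set μ : Measure (V → I) := Measure.infinitePi (fun _ : V => (volume : Measure I)) with hμ
  set μ' : Measure (V → ℕ → I) :=
    Measure.infinitePi (fun _ : V => Measure.infinitePi (fun _ : ℕ => (volume : Measure I))) with hμ'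
  haveI : IsProbabilityMeasure μ := by rw [hμ]; infer_instance
  haveI : IsProbabilityMeasure μ' := by rw [hμ']; infer_instance
  haveI : IsProbabilityMeasure (MU V) := by unfold MU; infer_instance
  have hmap : Measure.map (dd dec) μ = μ.prod (μ'.prod (MU V)) := hlawV
  have hinj : ∀ᵐ o ∂μ, Function.Injective o := hINJ V
  filter_upwards [hok, hrec, hks] with ω h1 h2 h3
  set g := G ω with hg
  have hgood : ∀ᵐ r ∂μ', GoodH g (Hg ks g r) := hEX V g ks h1 h3
  have hconn : g.Connected := h1.2.2.1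
  obtain ⟨x0⟩ : Nonempty V := by
    haveI := h1.1
    infer_instance
  constructor
  · have ha : ∀ᵐ z ∂(μ.prod (μ'.prod (MU V))), Function.Injective z.1 :=
      (Measure.quasiMeasurePreserving_fst).ae hinj
    have hb : ∀ᵐ z ∂(μ.prod (μ'.prod (MU V))), GoodH g (Hg ks g z.2.1) := by
      have hb1 : ∀ᵐ z ∂(μ'.prod (MU V)), GoodH g (Hg ks g z.1) :=
        (Measure.quasiMeasurePreserving_fst).ae hgood
      exact (Measure.quasiMeasurePreserving_snd).ae hb1
    have hc : ∀ᵐ z ∂(Measure.map (dd dec) μ), Function.Injective z.1 ∧ GoodH g (Hg ks g z.2.1) := by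
      rw [hmap]
      filter_upwards [ha, hb] with z hz1 hz2
      exact ⟨hz1, hz2⟩
    have hd' := ae_of_ae_map (dd_meas dec hd).aemeasurable hc
    filter_upwards [hd'] with U hU
    obtain ⟨hU1, hU2⟩ := hU
    intro a b hab
    have hT := (hLAW V Kf (Hg ks g (dd dec U).2.1) (dd dec U).1 hK hU2.1 hU2.2.1 hU2.2.2.1 hU1).1
      (dd dec U).2.2
    have key : ∀ a b : V, (∃ N, ∀ n ≥ N,
        (Tn Kf (Hg ks g (dd dec U).2.1) (dd dec U).1 (dd dec U).2.2 n).Adj a b) → g.Adj a b := by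
      rintro a b ⟨N, hN⟩
      have hN' := hN N le_rfl
      exact (hU2.2.2.2 a b).mpr ⟨N, (hT N).1.1 hN'⟩
    have hab' : (Tlim Kf (Hg ks g (dd dec U).2.1) (dd dec U).1 (dd dec U).2.2).Adj a b := hab
    unfold Tlim at hab'
    rw [SimpleGraph.fromRel_adj] at hab'
    rcases hab'.2 with h | h
    · exact key a b h
    · exact (key b a h).symm
  · intro F S hF A hA1 hA2 hA3
    obtain ⟨L, hL1, hL2⟩ := hCV V g h1 h2 F S hF
    have hval : ∀ o : V → I, Function.Injective o → ∀ r : V → ℕ → I, GoodH g (Hg ks g r) →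
        (MU V) {u | ∀ e ∈ F, (e ∈ (Tlim Kf (Hg ks g r) o u).edgeSet ↔ e ∈ S)} =
          ENNReal.ofReal L := by
      intro o ho r hr
      have t1 := hLM V Kf g (Hg ks g r) o hK hconn hr ho F S hF x0
      have t2 := hL1 (Hg ks g r) hr.2.1 hr.2.2.1 hr.2.2.2 x0
      have := tendsto_nhds_unique t1 t2
      rw [← this, measureReal_def, ENNReal.ofReal_toReal (measure_ne_top _ _)]
    have hfix : Measurable (fun z : (V → I) × (V → ℕ → I) × (ℕ → V → I) =>
        Tlim Kf (Hg ks g z.2.1) z.1 z.2.2) := by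
      have h5 : Measurable (fun z : (V → I) × (V → ℕ → I) × (ℕ → V → I) =>
          ((fun n => Hg ks g z.2.1 n), z.1, z.2.2)) := by
        refine Measurable.prodMk ?_ (Measurable.prodMk measurable_fst measurable_snd.snd)
        refine measurable_pi_lambda _ (fun n => ?_)
        exact (hMS2 V ks n).comp (measurable_const.prodMk measurable_snd.fst)
      exact (hMS4 V Kf hK).comp h5
    have hset := cond_meas hfix F S
    have e1 : μ {U | ∀ e ∈ F, (e ∈ (Phi Kf dec ks g U).edgeSet ↔ e ∈ S)} = ENNReal.ofReal L := by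
      have e2 : {U | ∀ e ∈ F, (e ∈ (Phi Kf dec ks g U).edgeSet ↔ e ∈ S)} =
          dd dec ⁻¹' {z : (V → I) × (V → ℕ → I) × (ℕ → V → I) |
            ∀ e ∈ F, (e ∈ (Tlim Kf (Hg ks g z.2.1) z.1 z.2.2).edgeSet ↔ e ∈ S)} := rfl
      rw [e2, ← Measure.map_apply (dd_meas dec hd) hset, hmap, Measure.prod_apply hset]
      have e3 : ∀ᵐ o ∂μ, (μ'.prod (MU V)) (Prod.mk o ⁻¹' {z : (V → I) × (V → ℕ → I) × (ℕ → V → I) |
            ∀ e ∈ F, (e ∈ (Tlim Kf (Hg ks g z.2.1) z.1 z.2.2).edgeSet ↔ e ∈ S)}) =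
          ENNReal.ofReal L := by
        filter_upwards [hinj] with o ho
        have hset2 : MeasurableSet (Prod.mk o ⁻¹' {z : (V → I) × (V → ℕ → I) × (ℕ → V → I) |
            ∀ e ∈ F, (e ∈ (Tlim Kf (Hg ks g z.2.1) z.1 z.2.2).edgeSet ↔ e ∈ S)}) :=
          measurable_prodMk_left hset
        rw [Measure.prod_apply hset2]
        have e4 : ∀ᵐ r ∂μ', (MU V) (Prod.mk r ⁻¹' (Prod.mk o ⁻¹'
            {z : (V → I) × (V → ℕ → I) × (ℕ → V → I) |
            ∀ e ∈ F, (e ∈ (Tlim Kf (Hg ks g z.2.1) z.1 z.2.2).edgeSet ↔ e ∈ S)})) =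
            ENNReal.ofReal L := by
          filter_upwards [hgood] with r hr
          exact hval o ho r hr
        rw [lintegral_congr_ae e4]
        simp
      rw [lintegral_congr_ae e3]
      simp
    have hL0 : 0 ≤ L := by
      obtain ⟨o, ho⟩ := hinj.exists
      obtain ⟨r, hr⟩ := hgood.exists
      have t1 := hLM V Kf g (Hg ks g r) o hK hconn hr ho F S hF x0
      have t2 := hL1 (Hg ks g r) hr.2.1 hr.2.2.1 hr.2.2.2 x0
      rw [← tendsto_nhds_unique t1 t2]
      exact measureReal_nonneg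
    have e5 : μ.real {U | ∀ e ∈ F, (e ∈ (Phi Kf dec ks g U).edgeSet ↔ e ∈ S)} = L := by
      rw [measureReal_def, e1, ENNReal.toReal_ofReal hL0]
    rw [e5]
    exact hL2 A hA1 hA2 hA3

end Pool.Agent.Y782.WU
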