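import Pool.Agent.Y782.WU.Defs

set_option autoImplicit false

open MeasureTheory ProbabilityTheory Filter Topology
open scoped ENNReal NNReal BigOperators unitInterval

namespace Pool.Agent.Y782.WU

/-! ## Finite multigraphs -/

/-- incidence vector -/
noncomputable def inc {W E : Type} (M : FG W E) (e : E) (v : W) : ℝ :=
  open Classical in (if M.s e = v then 1 else 0) - (if M.t e = v then 1 else 0)

open Classical in
/-- WU-MT: the weighted matrix tree theorem. -/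
def S_MT : Prop :=
  ∀ (W E : Type) (M : FG W E) (r : W), r ∈ M.A → ∀ x : E → ℝ,
    Matrix.det (Matrix.of (fun v w : {v // v ∈ M.A.erase r} =>
      ∑ e ∈ M.D, x e * inc M e v * inc M e w)) =
      ∑ S ∈ M.D.powerset.filter (fun S => IsST M S), ∏ e ∈ S, x e

open Classical in
/-- WU-RAY: pairwise negative correlation. -/
def S_RAY : Prop :=
  ∀ (W E : Type) (M : FG W E) (Y O : Finset E) (e f : E), e ≠ f → e ∉ Y → e ∉ O → f ∉ Y → f ∉ O →
    NS M (insert e (insert f Y)) O tr * NS M Y (insert e (insert f O)) tr ≤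
      NS M (insert e Y) (insert f O) tr * NS M (insert f Y) (insert e O) tr

open Classical in
/-- WU-FM: the theorem of Feder and Mihail. -/
def S_FM : Prop :=
  ∀ (W E : Type) (M : FG W E) (Y O : Finset E) (e : E) (P : Finset E → Prop), e ∉ Y → e ∉ O →
    (∀ S S' : Finset E, S ⊆ S' → P S → P S') → (∀ S : Finset E, P S → P (S.erase e)) →
    NS M (insert e Y) O P * NS M Y (insert e O) tr ≤
      NS M Y (insert e O) P * NS M (insert e Y) O tr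

open Classical in
/-- WU-DOM: deleting edges increases the tree. -/
def S_DOM : Prop :=
  ∀ (W E : Type) (M : FG W E) (O : Finset E) (P : Finset E → Prop), 0 < NS M ∅ O tr →
    (∀ S S' : Finset E, S ⊆ S' → P S → P S') → (∀ S : Finset E, P S → P (S \ O)) →
    NS M ∅ ∅ P * NS M ∅ O tr ≤ NS M ∅ O P * NS M ∅ ∅ tr

open Classical in
/-- WU-HALL: monotone coupling. -/
def S_HL : Prop :=
  ∀ (W E : Type) (M : FG W E) (O : Finset E), 0 < NS M ∅ O tr →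
    ∃ c : Finset E → Finset E → ℕ,
      (∀ t S, c t S ≠ 0 → IsST M t ∧ Disjoint t O ∧ IsST M S ∧ S \ O ⊆ t) ∧
      (∀ t, IsST M t → Disjoint t O → ∑ S ∈ M.D.powerset, c t S = NS M ∅ ∅ tr) ∧
      (∀ S, IsST M S → ∑ t ∈ M.D.powerset, c t S = NS M ∅ O tr)

open Classical in
/-- WU-CP: comparison of two laws. -/
def S_CP : Prop :=
  ∀ (W E : Type) (M : FG W E) (O F S : Finset E), 0 < NS M ∅ O tr → Disjoint F O →
    (∀ e ∈ F, (NS M ∅ ∅ (agr {e} {e}) : ℝ) / NS M ∅ ∅ tr ≤ (NS M ∅ O (agr {e} {e}) : ℝ) / NS M ∅ O tr) ∧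
    |(NS M ∅ O (agr F S) : ℝ) / NS M ∅ O tr - (NS M ∅ ∅ (agr F S) : ℝ) / NS M ∅ ∅ tr| ≤
      ∑ e ∈ F, ((NS M ∅ O (agr {e} {e}) : ℝ) / NS M ∅ O tr -
        (NS M ∅ ∅ (agr {e} {e}) : ℝ) / NS M ∅ ∅ tr)

open Classical in
/-- WU-EN: the probability of an edge and the Dirichlet energy. -/
def S_EN : Prop :=
  ∀ (W E : Type) (M : FG W E) (e : E), 0 < NS M ∅ ∅ tr → e ∈ M.D → M.s e ≠ M.t e →
    (∀ f : W → ℝ, f (M.s e) = 1 → f (M.t e) = 0 →
      1 ≤ (NS M ∅ ∅ (agr {e} {e}) : ℝ) / NS M ∅ ∅ tr * ∑ g ∈ M.D, (f (M.s g) - f (M.t g)) ^ 2) ∧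
    ∃ f : W → ℝ, f (M.s e) = 1 ∧ f (M.t e) = 0 ∧ (∀ v, 0 ≤ f v ∧ f v ≤ 1) ∧
      (NS M ∅ ∅ (agr {e} {e}) : ℝ) / NS M ∅ ∅ tr * ∑ g ∈ M.D, (f (M.s g) - f (M.t g)) ^ 2 = 1

/-! ## Dictionary -/

open Classical in
/-- WU-D1 -/
def S_D1 : Prop :=
  ∀ (V : Type) (H : SimpleGraph V) (x : V) (hf : (cls H x).Finite),
    (STs H x).Finite ∧ (STs H x).Nonempty ∧ 0 < NS (gC H x hf) ∅ ∅ tr ∧
    (∀ F S : Finset (Sym2 V), fr H x F S =
      (NS (gC H x hf) ∅ ∅ (agr F S) : ℝ) / NS (gC H x hf) ∅ ∅ tr) ∧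
    ∀ (H' : SimpleGraph V) (hf' : (cls H' x).Finite), H ≤ H' →
      ∃ O : Finset (Sym2 V), (∀ e ∈ (gC H x hf).D, e ∉ O) ∧ 0 < NS (gC H' x hf') ∅ O tr ∧
        ∀ F S : Finset (Sym2 V), (∀ e ∈ F, e ∈ (gC H x hf).D) →
          (NS (gC H' x hf') ∅ O (agr F S) : ℝ) / NS (gC H' x hf') ∅ O tr = fr H x F S

open Classical in
/-- WU-D2 -/
def S_D2 : Prop :=
  ∀ (V : Type) (G : SimpleGraph V) (A : Finset V) (x : V), Infinite V → G.Connected →
    ∀ (hD : {e : Sym2 V | e ∈ G.edgeSet ∧ ∃ v ∈ e, v ∈ A}.Finite)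
    (hf : (cls (rst G A) x).Finite), x ∈ A → (∀ a ∈ A, a ∈ cls (rst G A) x) →
    (WTs G A).Finite ∧ 0 < NS (gW G A hD) ∅ ∅ tr ∧
    (∀ F S : Finset (Sym2 V), wr G A F S =
      (NS (gW G A hD) ∅ ∅ (agr F S) : ℝ) / NS (gW G A hD) ∅ ∅ tr) ∧
    ∃ O : Finset (Sym2 V), (∀ e ∈ (gC (rst G A) x hf).D, e ∉ O) ∧ 0 < NS (gW G A hD) ∅ O tr ∧
      ∀ F S : Finset (Sym2 V), (∀ e ∈ F, e ∈ (gC (rst G A) x hf).D) →
        (NS (gW G A hD) ∅ O (agr F S) : ℝ) / NS (gW G A hD) ∅ O tr = fr (rst G A) x F S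

/-- WU-KER -/
def S_KER : Prop := ∃ Kf : KT, IsKer Kf

/-! ## Random walk -/

/-- standing assumptions on the graph -/
def Okg {V : Type} (G : SimpleGraph V) : Prop :=
  Infinite V ∧ Countable V ∧ G.Connected ∧ ∀ v, (G.neighborSet v).Finite

/-- WU-GR -/
def S_GR : Prop :=
  ∀ (V : Type) (G : SimpleGraph V), Okg G →
    (∀ k v, ∑' w, ab G k v w = 1) ∧ (∀ k w, ∑' v, ab G k v w ≤ (dgr G w : ℝ≥0∞)) ∧
    (Rec G → ∀ v, Tendsto (fun k => qq G k v) atTop (𝓝 0))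

open Classical in
/-- WU-TF -/
def S_TF : Prop :=
  ∀ (V : Type) (G : SimpleGraph V), Okg G → Rec G → ∀ (B : Finset V) (δ : ℝ), 0 < δ →
    ∃ g : V → ℝ, (∀ v, 0 ≤ g v ∧ g v ≤ 1) ∧ (∀ v ∈ B, g v = 1) ∧ {v | g v ≠ 0}.Finite ∧
      ∑' v, ∑' w, (if G.Adj v w then ENNReal.ofReal ((g v - g w) ^ 2) else 0) ≤ ENNReal.ofReal δ

/-! ## Convergence of the uniform spanning trees -/

/-- WU-C3 -/
def S_C3 : Prop :=
  ∀ (V : Type) (G : SimpleGraph V), Okg G → Rec G → ∀ (x : V), ∀ e ∈ G.edgeSet, ∀ ε : ℝ, 0 < ε →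
    ∃ B : Finset V, ∀ A : Finset V, B ⊆ A → x ∈ A → (∀ a ∈ A, a ∈ cls (rst G A) x) →
      fr (rst G A) x {e} {e} - wr G A {e} {e} ≤ ε

/-- WU-CV -/
def S_CV : Prop :=
  ∀ (V : Type) (G : SimpleGraph V), Okg G → Rec G → ∀ F S : Finset (Sym2 V),
    (F : Set (Sym2 V)) ⊆ G.edgeSet →
    ∃ L : ℝ, (∀ H : ℕ → SimpleGraph V, Monotone H → (∀ n x, (cls (H n) x).Finite) →
        (∀ x y, G.Adj x y ↔ ∃ n, (H n).Adj x y) →
        ∀ x, Tendsto (fun n => fr (H n) x F S) atTop (𝓝 L)) ∧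
      (∀ A : ℕ → Finset V, Monotone A → (∀ n, ∀ x ∈ A n, ∀ a ∈ A n, a ∈ cls (rst G (A n)) x) →
        (∀ v, ∃ n, v ∈ A n) → Tendsto (fun n => wr G (A n) F S) atTop (𝓝 L))

/-! ## Races and exhaustions -/

/-- WU-RC -/
def S_RC : Prop :=
  ∀ (V : Type) [Countable V] (a b : V → ℝ≥0∞), ∑' c, a c = 1 → ∑' c, b c = 1 →
    (∀ c, MeasurableSet {x : V → I | win a (fun v => er (x v)) c}) ∧
    MeasurableSet {x : V → I | sm a b (fun v => er (x v))} ∧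
    (∀ c, Measure.infinitePi (fun _ : V => (volume : Measure I))
      {x | win a (fun v => er (x v)) c} = a c) ∧
    Measure.infinitePi (fun _ : V => (volume : Measure I))
      {x | ¬ sm a b (fun v => er (x v))} ≤ l1 a b

/-- a good exhaustion of `G` -/
def GoodH {V : Type} (G : SimpleGraph V) (H : ℕ → SimpleGraph V) : Prop :=
  H 0 = ⊥ ∧ Monotone H ∧ (∀ n x, (cls (H n) x).Finite) ∧ ∀ x y, G.Adj x y ↔ ∃ n, (H n).Adj x y

/-- WU-EX -/
def S_EX : Prop :=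
  ∀ (V : Type) [Countable V] (G : SimpleGraph V) (ks : ℕ → ℕ), Okg G →
    (∀ v, ∑' n, qq G (ks n) v < ⊤) →
    ∀ᵐ r ∂(Measure.infinitePi (fun _ : V => Measure.infinitePi (fun _ : ℕ => (volume : Measure I)))),
      GoodH G (Hg ks G r)

/-! ## The law of the forests -/

/-- law of the labels used by the forests -/
noncomputable def MU (V : Type) : Measure (ℕ → V → I) :=
  Measure.infinitePi (fun _ : ℕ => Measure.infinitePi (fun _ : V => (volume : Measure I)))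

/-- WU-LAW -/
def S_LAW : Prop :=
  ∀ (V : Type) [Countable V] (Kf : KT) (H : ℕ → SimpleGraph V) (o : V → I), IsKer Kf →
    H 0 = ⊥ → Monotone H → (∀ n x, (cls (H n) x).Finite) → Function.Injective o →
    (∀ u n, Tn Kf H o u n ∈ MSF (H n) ∧ Tn Kf H o u (n + 1) ⊓ H n ≤ Tn Kf H o u n) ∧
    ∀ (n : ℕ) (x : V) (Q : SimpleGraph V → Prop),
      MeasurableSet {u : ℕ → V → I | Q (rst (Tn Kf H o u n) (cls (H n) x))} ∧
      (MU V).real {u | Q (rst (Tn Kf H o u n) (cls (H n) x))} =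
        (Set.ncard {t | t ∈ STs (H n) x ∧ Q t} : ℝ) / (Set.ncard (STs (H n) x) : ℝ)

/-- WU-LM -/
def S_LM : Prop :=
  ∀ (V : Type) [Countable V] (Kf : KT) (G : SimpleGraph V) (H : ℕ → SimpleGraph V) (o : V → I),
    IsKer Kf → G.Connected → GoodH G H → Function.Injective o → ∀ (F S : Finset (Sym2 V)),
    (F : Set (Sym2 V)) ⊆ G.edgeSet → ∀ x : V,
    Tendsto (fun n => fr (H n) x F S) atTop
      (𝓝 ((MU V).real {u | ∀ e ∈ F, (e ∈ (Tlim Kf H o u).edgeSet ↔ e ∈ S)}))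

/-! ## Measurability, equivariance, labels -/

/-- WU-MS1 -/
def S_MS1 : Prop :=
  ∀ (V : Type) [Countable V] (k : ℕ) (v w : V), Measurable (fun g : SimpleGraph V => ab g k v w) ∧
    Measurable (fun g : SimpleGraph V => qq g k v)

/-- WU-MS2 -/
def S_MS2 : Prop :=
  ∀ (V : Type) [Countable V] (ks : ℕ → ℕ) (n : ℕ),
    Measurable (fun p : SimpleGraph V × (V → ℕ → I) => Hg ks p.1 p.2 n)

/-- WU-MS3 -/
def S_MS3 : Prop :=
  ∀ (V : Type) [Countable V] (Kf : KT), IsKer Kf →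
    Measurable (fun p : SimpleGraph V × SimpleGraph V × SimpleGraph V × (V → I) × (V → I) =>
      stepT Kf p.1 p.2.1 p.2.2.1 p.2.2.2.1 p.2.2.2.2)

/-- WU-MS4 -/
def S_MS4 : Prop :=
  ∀ (V : Type) [Countable V] (Kf : KT), IsKer Kf →
    Measurable (fun p : (ℕ → SimpleGraph V) × (V → I) × (ℕ → V → I) => Tlim Kf p.1 p.2.1 p.2.2)

/-- WU-EQ1 -/
def S_EQ1 : Prop :=
  ∀ (V : Type) (τ : Equiv.Perm V) (ks : ℕ → ℕ) (G : SimpleGraph V) (r : V → ℕ → I) (n : ℕ),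
    Hg ks (G.comap τ) (fun v => r (τ v)) n = (Hg ks G r n).comap τ

/-- WU-EQ2 -/
def S_EQ2 : Prop :=
  ∀ (V : Type) (τ : Equiv.Perm V) (Kf : KT) (H : ℕ → SimpleGraph V) (o : V → I) (u : ℕ → V → I),
    Tlim Kf (fun n => (H n).comap τ) (fun v => o (τ v)) (fun n v => u n (τ v)) =
      (Tlim Kf H o u).comap τ

/-- WU-LAB -/
def S_LAB : Prop :=
  ∃ dec : I → I × (ℕ → I) × (ℕ → I), Measurable dec ∧ ∀ (V : Type) [Countable V],
    Measure.map (fun U : V → I => ((fun v => (dec (U v)).1), (fun v => (dec (U v)).2.1),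
        (fun (n : ℕ) v => (dec (U v)).2.2 n)))
      (Measure.infinitePi (fun _ : V => (volume : Measure I))) =
    (Measure.infinitePi (fun _ : V => (volume : Measure I))).prod
      ((Measure.infinitePi (fun _ : V => Measure.infinitePi (fun _ : ℕ => (volume : Measure I)))).prod
        (MU V))

/-- WU-INJ: the order labels are distinct. -/
def S_INJ : Prop :=
  ∀ (V : Type) [Countable V], ∀ᵐ o ∂(Measure.infinitePi (fun _ : V => (volume : Measure I))),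
    Function.Injective o

/-! ## The random graph -/

/-- unimodular random rooted graphs (mass transport principle) -/
def Unim {V Ω : Type} [MeasurableSpace Ω] (P : Measure Ω) (G : Ω → SimpleGraph V) (ρ : Ω → V) : Prop :=
  ∀ f : SimpleGraph V → V → V → ℝ≥0∞, (∀ x y, Measurable (fun g => f g x y)) →
    (∀ (τ : Equiv.Perm V) g x y, f (g.comap τ) x y = f g (τ x) (τ y)) →
    ∫⁻ ω, ∑' x, f (G ω) (ρ ω) x ∂P = ∫⁻ ω, ∑' x, f (G ω) x (ρ ω) ∂P

/-- WU-KS: choice of the killing rates. -/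
def S_KS : Prop :=
  ∀ (V Ω : Type) [Countable V] [MeasurableSpace Ω] (P : Measure Ω) [IsProbabilityMeasure P]
    (G : Ω → SimpleGraph V) (ρ : Ω → V), Measurable G → (∀ x, MeasurableSet {ω | ρ ω = x}) →
    (∀ᵐ ω ∂P, Okg (G ω)) → (∀ᵐ ω ∂P, Rec (G ω)) → Unim P G ρ →
    ∃ ks : ℕ → ℕ, ∀ᵐ ω ∂P, ∀ v, ∑' n, qq (G ω) (ks n) v < ⊤

/-- the theorem -/
def S_MAIN : Prop :=
  ∀ (V Ω : Type) [Countable V] [MeasurableSpace Ω] (P : Measure Ω) [IsProbabilityMeasure P]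
    (G : Ω → SimpleGraph V) (ρ : Ω → V), Measurable G → (∀ x, MeasurableSet {ω | ρ ω = x}) →
    (∀ᵐ ω ∂P, Okg (G ω)) → (∀ᵐ ω ∂P, Rec (G ω)) → Unim P G ρ →
    ∃ Φ : SimpleGraph V → (V → I) → SimpleGraph V,
      (∀ (τ : Equiv.Perm V) (g : SimpleGraph V) (U : V → I),
        Φ (g.comap τ) (fun v => U (τ v)) = (Φ g U).comap τ) ∧
      Measurable (fun p : SimpleGraph V × (V → I) => Φ p.1 p.2) ∧
      ∀ᵐ ω ∂P, (∀ᵐ U ∂(Measure.infinitePi (fun _ : V => (volume : Measure I))), Φ (G ω) U ≤ G ω) ∧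
        ∀ F S : Finset (Sym2 V), (F : Set (Sym2 V)) ⊆ (G ω).edgeSet →
        ∀ A : ℕ → Finset V, Monotone A →
          (∀ n, ∀ x ∈ A n, ∀ a ∈ A n, a ∈ cls (rst (G ω) (A n)) x) → (∀ v, ∃ n, v ∈ A n) →
          Tendsto (fun n => wr (G ω) (A n) F S) atTop
            (𝓝 ((Measure.infinitePi (fun _ : V => (volume : Measure I))).real
              {U | ∀ e ∈ F, (e ∈ (Φ (G ω) U).edgeSet ↔ e ∈ S)}))

end Pool.Agent.Y782.WU
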